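import Mathlib
import Pool.Agent.Helper92.PO.Stmts

/-! Module PALL: all lists of given length over a list, polynomial time. -/

namespace Pool.Agent.Helper92.PO

open Function Pool.Agent.Helper52.Poly

theorem pall_sz_list {β : Type} [Enc β] (s : List β) (B : ℕ) (h : ∀ x ∈ s, sz x ≤ B) :
    sz s ≤ 1 + s.length * (1 + B) := by
  induction s with
  | nil => simp [sz_nil]
  | cons a s ih =>
    have h1 := h a List.mem_cons_self
    have h3 := ih (fun w hw => h w (List.mem_cons_of_mem _ hw))
    rw [sz_cons, List.length_cons, Nat.succ_mul]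
    omega

theorem pall_length {α : Type} (l : List α) (i : ℕ) : (allL l i).length = l.length ^ i := by
  induction i with
  | zero => simp [allL]
  | succ i ih =>
    rw [allL, List.length_flatMap]
    simp only [List.length_map, List.map_const', List.sum_replicate, smul_eq_mul]
    rw [ih, pow_succ]

theorem pall_mem {α : Type} (l : List α) (i : ℕ) : ∀ t ∈ allL l i, t.length = i ∧ ∀ a ∈ t, a ∈ l := by
  induction i with
  | zero =>
    intro t ht
    rw [allL, List.mem_singleton] at ht
    subst ht
    simp
  | succ i ih =>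
    intro t ht
    rw [allL, List.mem_flatMap] at ht
    obtain ⟨s, hs, hst⟩ := ht
    rw [List.mem_map] at hst
    obtain ⟨a, ha, rfl⟩ := hst
    obtain ⟨h1, h2⟩ := ih s hs
    refine ⟨by rw [List.length_cons, h1], ?_⟩
    intro b hb
    rcases List.mem_cons.1 hb with rfl | hb
    · exact ha
    · exact h2 b hb

/-- the step -/
def pallStep {α : Type} (s : (List α × List (List α)) × ℕ) : List α × List (List α) :=
  (s.1.1, s.1.2.flatMap fun t => s.1.1.map fun a => a :: t)

theorem pall_fold {α : Type} (L : List α) : ∀ (m : List ℕ) (j : ℕ),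
    m.foldl (fun u x => pallStep (u, x)) (L, allL L j) = (L, allL L (j + m.length)) := by
  intro m
  induction m with
  | nil => intro j; rfl
  | cons x m ih =>
    intro j
    have h1 : pallStep ((L, allL L j), x) = (L, allL L (j + 1)) := rfl
    rw [List.foldl_cons, h1, ih (j + 1), List.length_cons]
    congr 2
    omega

theorem st_PALL (h1 : ST_PFLM) (h2 : ST_PRNG) : ST_PALL := by
  intro γ α _ _ l k hl hk hQ
  obtain ⟨Q, hQ⟩ := hQ
  obtain ⟨hkP, Qk, hQk⟩ := hk
  obtain ⟨Ql, hQl⟩ := hl.size_le
  have hrange : PF (fun c => List.range (k c)) := h2 γ k ⟨hkP, Qk, hQk⟩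
  have hstep : PF (pallStep (α := α)) := by
    have e1 : PF (fun y : ((List α × List (List α)) × ℕ) × List α =>
        y.1.1.1.map (fun a => a :: y.2)) := by
      have := PF.map (l := fun y : ((List α × List (List α)) × ℕ) × List α => y.1.1.1)
        (h := fun z : (((List α × List (List α)) × ℕ) × List α) × α => z.2 :: z.1.2)
        (PF.fst' (PF.fst' PF.fst)) (PF.cons PF.snd (PF.snd' PF.fst))
      exact this
    have e2 := h1 ((List α × List (List α)) × ℕ) (List α) (List α)
      (fun s => s.1.2) (fun y => y.1.1.1.map (fun a => a :: y.2)) (PF.snd' PF.fst) e1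
    exact PF.pair (PF.fst' PF.fst) e2
  have hinit : PF (fun c => (l c, ([[]] : List (List α)))) := PF.pair hl (PF.const _)
  have key := PF.foldl hinit hrange hstep (1 + Ql + (1 + Q * (1 + (1 + Qk * (1 + Ql))))) (by
    intro c l1 l2 h12
    have hf := pall_fold (l c) l1 0
    rw [allL, zero_add] at hf
    rw [hf, sz_pair]
    have hlen : l1.length ≤ k c := by
      have := congrArg List.length h12
      rw [List.length_range, List.length_append] at this
      omega
    have hlen2 : l1.length ≤ Qk.eval (sz c) := le_trans hlen (hQk c)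
    have hs1 : ∀ t ∈ allL (l c) l1.length, sz t ≤ 1 + Qk.eval (sz c) * (1 + Ql.eval (sz c)) := by
      intro t ht
      obtain ⟨t1, t2⟩ := pall_mem (l c) l1.length t ht
      have := pall_sz_list t (Ql.eval (sz c)) (fun x hx => le_trans (sz_mem_le (t2 x hx)) (hQl c))
      rw [t1] at this
      have h5 : l1.length * (1 + Ql.eval (sz c)) ≤ Qk.eval (sz c) * (1 + Ql.eval (sz c)) :=
        Nat.mul_le_mul_right _ hlen2
      omega
    have hs2 := pall_sz_list _ _ hs1
    rw [pall_length] at hs2
    have hs3 : (l c).length ^ l1.length ≤ Q.eval (sz c) := by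
      refine le_trans ?_ (hQ c)
      refine le_trans (Nat.pow_le_pow_left (Nat.le_succ _) _) ?_
      exact Nat.pow_le_pow_right (Nat.succ_pos _) hlen
    have hs4 := Nat.mul_le_mul_right (1 + (1 + Qk.eval (sz c) * (1 + Ql.eval (sz c)))) hs3
    have hs5 := hQl c
    simp only [Polynomial.eval_add, Polynomial.eval_mul, Polynomial.eval_one]
    omega)
  refine (key.snd').congr (fun c => ?_)
  congr 1
  have hf := pall_fold (l c) (List.range (k c)) 0
  rw [allL, zero_add, List.length_range] at hf
  rw [hf]

end Pool.Agent.Helper92.PO
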